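import Mathlib

/-!
# MP_9d78a0_co: edge-maximal graphs without minors in a family of connected graphs
-/

set_option autoImplicit false

namespace Pool.Agent.Helper91.MC9

open SimpleGraph

/-- `H` is a minor of `G` (branch sets). -/
def IsMinor {W V : Type} (H : SimpleGraph W) (G : SimpleGraph V) : Prop :=
  ∃ B : W → Set V, (∀ w, (G.induce (B w)).Connected) ∧ Pairwise (fun a b => Disjoint (B a) (B b)) ∧
    ∀ a b, H.Adj a b → ∃ x ∈ B a, ∃ y ∈ B b, G.Adj x y

/-- `G` has no minor in the family `ℋ`. -/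
def Free {V : Type} (ℋ : Set (Σ m, SimpleGraph (Fin m))) (G : SimpleGraph V) : Prop :=
  ∀ H ∈ ℋ, ¬ IsMinor H.2 G

/-- `G` is edge-maximal `ℋ`-free. -/
def EdgeMax {V : Type} (ℋ : Set (Σ m, SimpleGraph (Fin m))) (G : SimpleGraph V) : Prop :=
  Free ℋ G ∧ ∀ u v, u ≠ v → ¬ G.Adj u v → ¬ Free ℋ (G ⊔ edge u v)

/-- `E_ℋ(n)`: the numbers of edges of the edge-maximal `ℋ`-free graphs with `n` vertices. -/
def Eset (ℋ : Set (Σ m, SimpleGraph (Fin m))) (n : ℕ) : Set ℕ :=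
  {e | ∃ (V : Type) (_ : Finite V) (G : SimpleGraph V),
    Nat.card V = n ∧ EdgeMax ℋ G ∧ G.edgeSet.ncard = e}

/-- `M⁺_ℋ(n)` -/
noncomputable def Mmax (ℋ : Set (Σ m, SimpleGraph (Fin m))) (n : ℕ) : ℕ := sSup (Eset ℋ n)

/-- `M⁻_ℋ(n)` -/
noncomputable def Mmin (ℋ : Set (Σ m, SimpleGraph (Fin m))) (n : ℕ) : ℕ := sInf (Eset ℋ n)

/-- `gap_ℋ(n)`. -/
noncomputable def gap (ℋ : Set (Σ m, SimpleGraph (Fin m))) (n : ℕ) : ℕ := Mmax ℋ n - Mmin ℋ n

/-- `ℋ` is non-empty and each member has an edge. -/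
def Suitable (ℋ : Set (Σ m, SimpleGraph (Fin m))) : Prop := ℋ.Nonempty ∧ ∀ H ∈ ℋ, H.2 ≠ ⊥

/-- all the members are connected -/
def ConnFam (ℋ : Set (Σ m, SimpleGraph (Fin m))) : Prop := ∀ H ∈ ℋ, H.2.Connected

/-- `m` disjoint copies of `G` -/
def copies {V : Type} (m : ℕ) (G : SimpleGraph V) : SimpleGraph (Fin m × V) where
  Adj a b := a.1 = b.1 ∧ G.Adj a.2 b.2
  symm := ⟨fun a b h => ⟨h.1.symm, h.2.symm⟩⟩
  loopless := ⟨fun a h => G.loopless.irrefl _ h.2⟩

/-- a component that is isomorphic to no other component -/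
def Uniq {V : Type} (G : SimpleGraph V) (C : G.ConnectedComponent) : Prop :=
  ∀ C' : G.ConnectedComponent, C' ≠ C → IsEmpty (C.toSimpleGraph ≃g C'.toSimpleGraph)

/-- the number of the components that are isomorphic to no other component -/
noncomputable def uq {V : Type} (G : SimpleGraph V) : ℕ :=
  {C : G.ConnectedComponent | Uniq G C}.ncard

/-- the quotient graph on the copies of the component `C` -/
def quo {V : Type} {m : ℕ} (G : SimpleGraph V) (C : G.ConnectedComponent)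
    (G' : SimpleGraph (Fin m × V)) : SimpleGraph (Fin m) where
  Adj i j := i ≠ j ∧ ∃ x y, G.connectedComponentMk x = C ∧ G.connectedComponentMk y = C ∧
    G'.Adj (i, x) (j, y)
  symm := ⟨fun i j h => ⟨h.1.symm, by
    obtain ⟨-, x, y, hx, hy, h⟩ := h
    exact ⟨y, x, hy, hx, h.symm⟩⟩⟩
  loopless := ⟨fun i h => h.1 rfl⟩

end Pool.Agent.Helper91.MC9
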