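import Pool.Agent.Helper91.MC9.Fin

/-!
# MP_9d78a0_co: classes that are closed under disjoint unions
-/

set_option autoImplicit false

namespace Pool.Agent.Helper91.MC9

open SimpleGraph Filter Topology

/-- the class of the finite `ℋ`-free graphs is closed under disjoint unions -/
def UnionClosed (ℋ : Set (Σ m, SimpleGraph (Fin m))) : Prop :=
  ∀ (V V' : Type) [Finite V] [Finite V'] (G : SimpleGraph V) (G' : SimpleGraph V'),
    Free ℋ G → Free ℋ G' → Free ℋ (G ⊕g G')

/-- the connected graphs that are not free -/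
def conn (ℋ : Set (Σ m, SimpleGraph (Fin m))) : Set (Σ m, SimpleGraph (Fin m)) :=
  {H | H.2.Connected ∧ ¬ Free ℋ H.2}

lemma free_emb (hEMB : S_EMB) {ℋ : Set (Σ m, SimpleGraph (Fin m))} {V V' : Type}
    {G : SimpleGraph V} {G' : SimpleGraph V'} (φ : V → V') (hφ : Function.Injective φ)
    (h : ∀ x y, G.Adj x y → G'.Adj (φ x) (φ y)) (hG' : Free ℋ G') : Free ℋ G :=
  fun H hH hm => hG' H hH (hEMB _ _ _ _ _ _ φ hφ h hm)

lemma free_conn_of_free (hTRANS : S_TRANS) {ℋ : Set (Σ m, SimpleGraph (Fin m))} {V : Type}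
    {G : SimpleGraph V} (h : Free ℋ G) : Free (conn ℋ) G := by
  rintro H' ⟨-, hH'⟩ hm
  unfold Free at hH'
  push Not at hH'
  obtain ⟨H, hH, hHm⟩ := hH'
  exact h H hH (hTRANS _ _ _ _ _ _ hHm hm)

lemma free_of_free_conn (hEMB : S_EMB) {ℋ : Set (Σ m, SimpleGraph (Fin m))}
    (hbot : ∀ V : Type, Free ℋ (⊥ : SimpleGraph V)) (hu : UnionClosed ℋ) :
    ∀ (n : ℕ) (V : Type) [Finite V] (G : SimpleGraph V), Nat.card V = n →
      Free (conn ℋ) G → Free ℋ G := by
  intro n
  induction n using Nat.strong_induction_on with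
  | _ n ih =>
  intro V _ G hn hG
  rcases isEmpty_or_nonempty V with hV | hV
  · have : G = ⊥ := by
      ext x
      exact (hV.false x).elim
    rw [this]
    exact hbot V
  by_cases hc : G.Connected
  · by_contra hcon
    let e : Fin (Nat.card V) ≃ V := (Finite.equivFin V).symm
    have h1 : (G.comap e).Connected := (Iso.comap e G).connected_iff.2 hc
    have h2 : ¬ Free ℋ (G.comap e) := by
      intro h
      apply hcon
      exact free_emb hEMB e.symm e.symm.injective
        (fun x y hxy => by simpa [comap_adj] using hxy) h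
    refine hG ⟨_, G.comap e⟩ ⟨h1, h2⟩ ?_
    -- `G.comap e` is a minor of `G`
    refine ⟨fun i => {e i}, fun i => ?_, fun a b hab => ?_, fun a b hab => ?_⟩
    · exact induce_singleton_eq_top G _ ▸ connected_top
    · refine Set.disjoint_left.2 ?_
      intro x hx hx'
      rw [Set.mem_singleton_iff] at hx hx'
      exact hab (e.injective (hx.symm.trans hx'))
    · exact ⟨_, rfl, _, rfl, hab⟩
  · -- a vertex whose component is not everything
    obtain ⟨v, w, hvw⟩ : ∃ v w, ¬ G.Reachable v w := by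
      by_contra hcon
      push Not at hcon
      exact hc ⟨hcon⟩
    let S : Set V := {x | G.Reachable v x}
    have hS : ∀ x y, G.Adj x y → (x ∈ S ↔ y ∈ S) := fun x y hxy =>
      ⟨fun h => h.trans hxy.reachable, fun h => h.trans hxy.symm.reachable⟩
    have c1 : Nat.card S < n := by
      rw [← hn, Nat.card_coe_set_eq, ← Set.ncard_univ]
      apply Set.ncard_lt_ncard _ (Set.toFinite _)
      rw [Set.ssubset_univ_iff]
      intro h
      have : w ∈ S := by rw [h]; trivial
      exact hvw this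
    have c2 : Nat.card (Sᶜ : Set V) < n := by
      rw [← hn, Nat.card_coe_set_eq, ← Set.ncard_univ]
      apply Set.ncard_lt_ncard _ (Set.toFinite _)
      rw [Set.ssubset_univ_iff]
      intro h
      have : v ∈ Sᶜ := by rw [h]; trivial
      exact this (Reachable.refl v)
    have f1 : Free ℋ (G.induce S) := ih _ c1 S (G.induce S) rfl
      (free_emb hEMB (fun x => x.1) Subtype.val_injective (fun x y h => h) hG)
    have f2 : Free ℋ (G.induce (Sᶜ : Set V)) := ih _ c2 _ (G.induce (Sᶜ : Set V)) rfl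
      (free_emb hEMB (fun x => x.1) Subtype.val_injective (fun x y h => h) hG)
    have f3 := hu _ _ _ _ f1 f2
    classical
    refine free_emb hEMB (fun x => if h : x ∈ S then Sum.inl ⟨x, h⟩ else Sum.inr ⟨x, h⟩) ?_ ?_ f3
    · intro x y hxy
      by_cases h1 : x ∈ S <;> by_cases h2 : y ∈ S <;> simp_all
    · intro x y hxy
      have h3 := hS x y hxy
      by_cases h1 : x ∈ S
      · have h2 : y ∈ S := h3.1 h1
        simpa [h1, h2] using hxy
      · have h2 : y ∉ S := fun h => h1 (h3.2 h)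
        simpa [h1, h2] using hxy

theorem ext_main (hTRANS : S_TRANS) (hEMB : S_EMB) (hSUP : S_SUP) (hFEK : S_FEK) (hLIN : S_LIN)
    (hESET : S_ESET) (hMUL : S_MUL) (hSTEP : S_STEP) (hLIM : S_LIM) :
    ∀ ℋ : Set (Σ m, SimpleGraph (Fin m)), Suitable ℋ → UnionClosed ℋ →
    ∃ L1 L2 : ℝ, Tendsto (fun n => (Mmax ℋ n : ℝ) / n) atTop (𝓝 L1) ∧
      Tendsto (fun n => (Mmin ℋ n : ℝ) / n) atTop (𝓝 L2) ∧
      Tendsto (fun n => (gap ℋ n : ℝ) / n) atTop (𝓝 (L1 - L2)) := by
  intro ℋ hs hu
  have hbot := (hESET ℋ hs).1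
  have hfree : ∀ (V : Type) [Finite V] (G : SimpleGraph V), Free ℋ G ↔ Free (conn ℋ) G :=
    fun V _ G => ⟨free_conn_of_free hTRANS, free_of_free_conn hEMB hbot hu _ V G rfl⟩
  have hem : ∀ (V : Type) [Finite V] (G : SimpleGraph V),
      EdgeMax ℋ G ↔ EdgeMax (conn ℋ) G := by
    intro V _ G
    unfold EdgeMax
    rw [hfree V G]
    refine and_congr_right (fun _ => ?_)
    refine forall_congr' (fun u => forall_congr' (fun v => forall_congr' (fun _ =>
      forall_congr' (fun _ => ?_))))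
    rw [hfree V]
  have hE : ∀ n, Eset ℋ n = Eset (conn ℋ) n := by
    intro n
    ext e
    constructor
    · rintro ⟨V, hV, G, h1, h2, h3⟩
      exact ⟨V, hV, G, h1, (hem V G).1 h2, h3⟩
    · rintro ⟨V, hV, G, h1, h2, h3⟩
      exact ⟨V, hV, G, h1, (hem V G).2 h2, h3⟩
  have hs' : Suitable (conn ℋ) := by
    refine ⟨?_, ?_⟩
    · obtain ⟨⟨t, H⟩, hH⟩ := hs.1
      have ht : t ≠ 0 := by
        rintro rfl
        apply hs.2 _ hH
        ext x
        exact x.elim0
      have : Nonempty (Fin t) := ⟨⟨0, Nat.pos_of_ne_zero ht⟩⟩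
      refine ⟨⟨t, ⊤⟩, connected_top, fun hf => ?_⟩
      refine hf ⟨t, H⟩ hH ⟨fun i => {i}, fun i => ?_, fun a b hab => ?_, fun a b hab => ?_⟩
      · exact induce_singleton_eq_top _ _ ▸ connected_top
      · exact Set.disjoint_singleton.2 hab
      · exact ⟨a, rfl, b, rfl, by simpa using hab.ne⟩
    · rintro H ⟨_, h2⟩ h0
      rw [h0] at h2
      exact h2 (hbot _)
  have hc : ConnFam (conn ℋ) := fun H hH => hH.1
  have h := fin3 hSUP hFEK hLIN hESET hMUL hSTEP hLIM (conn ℋ) hs' hc
  have e1 : Mmax (conn ℋ) = Mmax ℋ := by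
    funext n
    unfold Mmax
    rw [hE]
  have e2 : Mmin (conn ℋ) = Mmin ℋ := by
    funext n
    unfold Mmin
    rw [hE]
  have e3 : gap (conn ℋ) = gap ℋ := by
    funext n
    unfold gap
    rw [e1, e2]
  rw [e1, e2, e3] at h
  exact h

end Pool.Agent.Helper91.MC9
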