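import Pool.Agent.Helper91.MC9.Spec

/-!
# MP_9d78a0_co: assembly
-/

set_option autoImplicit false

namespace Pool.Agent.Helper91.MC9

open SimpleGraph Filter Topology

theorem fin3 (hSUP : S_SUP) (hFEK : S_FEK) (hLIN : S_LIN) (hESET : S_ESET) (hMUL : S_MUL)
    (hSTEP : S_STEP) (hLIM : S_LIM) : ∀ ℋ : Set (Σ m, SimpleGraph (Fin m)), Suitable ℋ → ConnFam ℋ →
    ∃ L1 L2 : ℝ, Tendsto (fun n => (Mmax ℋ n : ℝ) / n) atTop (𝓝 L1) ∧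
      Tendsto (fun n => (Mmin ℋ n : ℝ) / n) atTop (𝓝 L2) ∧
      Tendsto (fun n => (gap ℋ n : ℝ) / n) atTop (𝓝 (L1 - L2)) := by
  intro ℋ hs hc
  obtain ⟨C, hC⟩ := hLIN ℋ hs.1
  obtain ⟨hbot, hE⟩ := hESET ℋ hs
  have hmax : ∀ n, Mmax ℋ n ≤ C * n := by
    intro n
    obtain ⟨V, hV, G, hn, hG, he⟩ := (hE n).2.2.1
    rw [← he, ← hn]
    exact hC V G hG.1
  have hmin : ∀ n, Mmin ℋ n ≤ C * n := fun n => (hE n).2.2.2.2.trans (hmax n)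
  obtain ⟨L1, h1⟩ := hFEK (Mmax ℋ) C hmax (hSUP ℋ hs hc)
  obtain ⟨K, hK⟩ := hMUL ℋ hs hc
  obtain ⟨K', hK'⟩ := hSTEP ℋ hs hc
  obtain ⟨L2, h2⟩ := hLIM (Mmin ℋ) C K K' hmin hK' hK
  refine ⟨L1, L2, h1, h2, ?_⟩
  have h3 := h1.sub h2
  refine h3.congr (fun n => ?_)
  have h4 : ((gap ℋ n : ℕ) : ℝ) = (Mmax ℋ n : ℝ) - (Mmin ℋ n : ℝ) := by
    unfold gap
    rw [Nat.cast_sub (hE n).2.2.2.2]
  rw [h4, sub_div]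

theorem fin (hSUP : S_SUP) (hFEK : S_FEK) (hLIN : S_LIN) (hESET : S_ESET) (hMUL : S_MUL)
    (hSTEP : S_STEP) (hLIM : S_LIM) : S_MAIN := by
  intro ℋ hs hc
  obtain ⟨L1, L2, -, -, h⟩ := fin3 hSUP hFEK hLIN hESET hMUL hSTEP hLIM ℋ hs hc
  exact ⟨_, h⟩

end Pool.Agent.Helper91.MC9
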