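import Pool.Agent.Helper91.MC9.Defs

/-!
# MP_9d78a0_co: statements of the parts
-/

set_option autoImplicit false

namespace Pool.Agent.Helper91.MC9

open SimpleGraph Filter Topology

/-- minors are transitive (put together the branch sets) -/
def S_TRANS : Prop := ∀ (U W V : Type) (H : SimpleGraph U) (Q : SimpleGraph W) (G : SimpleGraph V),
  IsMinor H Q → IsMinor Q G → IsMinor H G

/-- subgraphs -/
def S_EMB : Prop := ∀ (W V V' : Type) (H : SimpleGraph W) (G : SimpleGraph V)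
  (G' : SimpleGraph V') (φ : V → V'), Function.Injective φ →
  (∀ x y, G.Adj x y → G'.Adj (φ x) (φ y)) → IsMinor H G → IsMinor H G'

/-- contraction of an edge -/
def S_CON : Prop := ∀ (W : Type) [Finite W] (Q : SimpleGraph W) (x y : W), Q.Adj x y →
  ∃ Q' : SimpleGraph {z : W // z ≠ y}, IsMinor Q' Q ∧
    Q.edgeSet.ncard ≤ Q'.edgeSet.ncard + 1 + {z : W | Q.Adj x z ∧ Q.Adj y z}.ncard

/-- a complete minor in a neighbourhood -/
def S_CONE : Prop := ∀ (t : ℕ) (V : Type) (G : SimpleGraph V) (x : V),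
  IsMinor (⊤ : SimpleGraph (Fin t)) (G.induce (G.neighborSet x)) →
  IsMinor (⊤ : SimpleGraph (Fin (t + 1))) G

/-- many edges give a complete minor -/
def S_KT : Prop := ∀ (t : ℕ) (V : Type) [Finite V] [Nonempty V] (G : SimpleGraph V),
  2 ^ t * Nat.card V ≤ G.edgeSet.ncard → IsMinor (⊤ : SimpleGraph (Fin t)) G

/-- linear bound for the number of edges -/
def S_LIN : Prop := ∀ ℋ : Set (Σ m, SimpleGraph (Fin m)), ℋ.Nonempty → ∃ C : ℕ,
  ∀ (V : Type) [Finite V] (G : SimpleGraph V), Free ℋ G → G.edgeSet.ncard ≤ C * Nat.card V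

/-- cliques of `ℋ`-free graphs are bounded -/
def S_CLQ : Prop := ∀ ℋ : Set (Σ m, SimpleGraph (Fin m)), ℋ.Nonempty → ∃ h : ℕ,
  ∀ (V : Type) [Finite V] (G : SimpleGraph V), Free ℋ G → ∀ S : Set V, G.IsClique S → S.ncard ≤ h

/-- saturation -/
def S_SAT : Prop := ∀ (ℋ : Set (Σ m, SimpleGraph (Fin m))) (V : Type) [Finite V]
  (G : SimpleGraph V), Free ℋ G → ∃ G', G ≤ G' ∧ EdgeMax ℋ G'

/-- the edgeless graph is free, so `E_ℋ(n)` is nonempty and bounded -/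
def S_ESET : Prop := ∀ ℋ : Set (Σ m, SimpleGraph (Fin m)), Suitable ℋ →
  (∀ (V : Type), Free ℋ (⊥ : SimpleGraph V)) ∧
  ∀ n, (Eset ℋ n).Nonempty ∧ BddAbove (Eset ℋ n) ∧ Mmax ℋ n ∈ Eset ℋ n ∧ Mmin ℋ n ∈ Eset ℋ n ∧
    Mmin ℋ n ≤ Mmax ℋ n

/-- a connected minor lies in one piece of a graph -/
def S_SPLIT : Prop := ∀ (W V ι : Type) (H : SimpleGraph W) (G : SimpleGraph V) (p : V → ι),
  H.Connected → (∀ x y, G.Adj x y → p x = p y) → IsMinor H G →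
  ∃ i, IsMinor H (G.induce {x | p x = i})

/-- disjoint unions are free -/
def S_SUMF : Prop := ∀ (ℋ : Set (Σ m, SimpleGraph (Fin m))), ConnFam ℋ →
  ∀ (V V' : Type) (G : SimpleGraph V) (G' : SimpleGraph V'), Free ℋ G → Free ℋ G' →
  Free ℋ (G ⊕g G')

/-- copies are free -/
def S_COPF : Prop := ∀ (ℋ : Set (Σ m, SimpleGraph (Fin m))), ConnFam ℋ →
  ∀ (V : Type) (m : ℕ) (G : SimpleGraph V), Free ℋ G → Free ℋ (copies m G)

/-- the number of edges of the copies -/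
def S_COPE : Prop := ∀ (V : Type) [Finite V] (m : ℕ) (G : SimpleGraph V),
  (copies m G).edgeSet.ncard = m * G.edgeSet.ncard

/-- the neighbours of a connected set in a copy of an edge-maximal graph form a clique -/
def S_NBR : Prop := ∀ (ℋ : Set (Σ m, SimpleGraph (Fin m))) (V V' : Type) (G : SimpleGraph V)
  (G' : SimpleGraph V'), EdgeMax ℋ G → Free ℋ G' → ∀ φ : V → V', Function.Injective φ →
  (∀ x y, G.Adj x y → G'.Adj (φ x) (φ y)) → ∀ B : Set V', (G'.induce B).Connected →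
  (∀ x, φ x ∉ B) → ∀ x y, x ≠ y → (∃ b ∈ B, G'.Adj (φ x) b) → (∃ b ∈ B, G'.Adj (φ y) b) →
  G.Adj x y

/-- new edges only join different copies of the same unique component -/
def S_BLK : Prop := ∀ (ℋ : Set (Σ m, SimpleGraph (Fin m))) (V : Type) (G : SimpleGraph V) (m : ℕ)
  (G' : SimpleGraph (Fin m × V)), EdgeMax ℋ G → Free ℋ G' → copies m G ≤ G' →
  ∀ i j x y, G'.Adj (i, x) (j, y) → ¬ (i = j ∧ G.Adj x y) →
  i ≠ j ∧ G.connectedComponentMk x = G.connectedComponentMk y ∧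
    Uniq G (G.connectedComponentMk x)

/-- the quotient graph is free -/
def S_QUO : Prop := ∀ (ℋ : Set (Σ m, SimpleGraph (Fin m))) (V : Type) (G : SimpleGraph V) (m : ℕ)
  (G' : SimpleGraph (Fin m × V)), Free ℋ G' → copies m G ≤ G' →
  ∀ C : G.ConnectedComponent, Free ℋ (quo G C G')

/-- the number of edges between two copies of a component (by `NBR` and `CLQ`) -/
def S_PAIR : Prop := ∀ ℋ : Set (Σ m, SimpleGraph (Fin m)), ℋ.Nonempty → ∃ K : ℕ,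
  ∀ (V : Type) [Finite V] (G : SimpleGraph V) (m : ℕ) (G' : SimpleGraph (Fin m × V)),
  EdgeMax ℋ G → Free ℋ G' → copies m G ≤ G' → ∀ i j, i ≠ j → ∀ C : G.ConnectedComponent,
  {p : V × V | G.connectedComponentMk p.1 = C ∧ G.connectedComponentMk p.2 = C ∧
    G'.Adj (i, p.1) (j, p.2)}.ncard ≤ K

/-- the number of the edges (by `BLK`, `QUO`, `LIN`, `PAIR`) -/
def S_NEW : Prop := ∀ ℋ : Set (Σ m, SimpleGraph (Fin m)), ℋ.Nonempty → ∃ K : ℕ,
  ∀ (V : Type) [Finite V] (G : SimpleGraph V) (m : ℕ) (G' : SimpleGraph (Fin m × V)),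
  EdgeMax ℋ G → Free ℋ G' → copies m G ≤ G' →
  G'.edgeSet.ncard ≤ m * G.edgeSet.ncard + K * m * uq G

/-- few unique components -/
def S_UNQ : Prop := ∀ s : ℕ, ∃ N : ℕ, ∀ (V : Type) [Finite V] (G : SimpleGraph V),
  s * uq G ≤ Nat.card V + s * N

/-- `m` copies of a minimal graph -/
def S_MUL : Prop := ∀ ℋ : Set (Σ m, SimpleGraph (Fin m)), Suitable ℋ → ConnFam ℋ →
  ∃ K : ℕ, ∀ s : ℕ, ∃ N : ℕ, ∀ n m : ℕ,
    s * Mmin ℋ (m * n) ≤ s * (m * Mmin ℋ n) + K * m * (n + s * N)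

/-- one more vertex -/
def S_STEP : Prop := ∀ ℋ : Set (Σ m, SimpleGraph (Fin m)), Suitable ℋ → ConnFam ℋ →
  ∃ K : ℕ, ∀ n : ℕ, Mmin ℋ (n + 1) ≤ Mmin ℋ n + K

/-- superadditivity of the maximum -/
def S_SUP : Prop := ∀ ℋ : Set (Σ m, SimpleGraph (Fin m)), Suitable ℋ → ConnFam ℋ →
  ∀ a b : ℕ, Mmax ℋ a + Mmax ℋ b ≤ Mmax ℋ (a + b)

/-- the analysis lemma for the minimum -/
def S_LIM : Prop := ∀ (f : ℕ → ℕ) (C K K' : ℕ), (∀ n, f n ≤ C * n) →
  (∀ n, f (n + 1) ≤ f n + K') →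
  (∀ s : ℕ, ∃ N : ℕ, ∀ n m : ℕ, s * f (m * n) ≤ s * (m * f n) + K * m * (n + s * N)) →
  ∃ L : ℝ, Tendsto (fun n => (f n : ℝ) / n) atTop (𝓝 L)

/-- Fekete for the maximum -/
def S_FEK : Prop := ∀ (f : ℕ → ℕ) (C : ℕ), (∀ n, f n ≤ C * n) →
  (∀ a b, f a + f b ≤ f (a + b)) → ∃ L : ℝ, Tendsto (fun n => (f n : ℝ) / n) atTop (𝓝 L)

/-- the theorem -/
def S_MAIN : Prop := ∀ ℋ : Set (Σ m, SimpleGraph (Fin m)), Suitable ℋ → ConnFam ℋ →
  ∃ L : ℝ, Tendsto (fun n => (gap ℋ n : ℝ) / n) atTop (𝓝 L)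

end Pool.Agent.Helper91.MC9
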